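import Pool.Agent.H355.LAQ.OddM

set_option autoImplicit false

/-!
Graphs graded by a group, with a multiplicity function.
-/

namespace Pool.Agent.H355.LAQ

open Finset SimpleGraph H931R3.LA Pool.Agent.W111.LAR

theorem exists_family {Γ : Type} [Group Γ] [Fintype Γ] (μ : Γ → ℕ) (hinv : ∀ s, μ s⁻¹ = μ s)
    (hno : ∀ s, s * s = 1 → μ s = 0) :
    ∃ (κ : Type) (_ : Fintype κ) (s : κ → Γ), ∑ x, μ x = 2 * Fintype.card κ ∧
      (∀ i, μ (s i) ≠ 0) ∧
      (∀ g h, μ (g⁻¹ * h) ≤ {i | g ≠ h ∧ (h = g * s i ∨ h = g * (s i)⁻¹)}.ncard) ∧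
      ∑ i, (2 : ℝ) / orderOf (s i) = ∑ x, (μ x : ℝ) / orderOf x := by
  classical
  obtain ⟨T, hTS, hT, _, hsum⟩ := halve (univ.filter (fun s : Γ => μ s ≠ 0)) (by
    intro s hs
    rw [mem_filter] at hs ⊢
    rw [hinv]
    exact ⟨mem_univ _, hs.2⟩) (by
    intro s hs h
    exact (mem_filter.1 hs).2 (hno s h))
  have key : ∀ f : Γ → ℝ, (∀ s, f s⁻¹ = f s) → (∀ s, μ s = 0 → f s = 0) →
      ∑ x, f x = 2 * ∑ s ∈ T, f s := by
    intro f hf h0
    rw [← hsum f hf]
    symm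
    refine sum_subset (subset_univ _) (fun x _ hx => h0 x ?_)
    by_contra h
    exact hx (mem_filter.2 ⟨mem_univ _, h⟩)
  refine ⟨Σ s : T, Fin (μ s), inferInstance, fun i => i.1.1, ?_, ?_, ?_, ?_⟩
  · have h1 := key (fun s => (μ s : ℝ)) (fun s => by rw [hinv]) (fun s h => by rw [h]; simp)
    have h2 : Fintype.card (Σ s : T, Fin (μ s)) = ∑ s ∈ T, μ s := by
      rw [Fintype.card_sigma]
      simp only [Fintype.card_fin]
      exact Finset.sum_coe_sort T μ
    rw [h2]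
    exact_mod_cast h1
  · intro i
    exact (mem_filter.1 (hTS i.1.2)).2
  · intro g h
    by_cases h0 : μ (g⁻¹ * h) = 0
    · rw [h0]
      exact Nat.zero_le _
    · have hne : g ≠ h := by
        rintro rfl
        refine h0 ?_
        rw [inv_mul_cancel]
        exact hno 1 (by simp)
      have hmem : g⁻¹ * h ∈ univ.filter (fun s : Γ => μ s ≠ 0) := mem_filter.2 ⟨mem_univ _, h0⟩
      have hgen : ∀ x : Γ, ∀ hx : x ∈ T, (h = g * x ∨ h = g * x⁻¹) →
          μ x ≤ {i : Σ s : T, Fin (μ s) | g ≠ h ∧ (h = g * i.1.1 ∨ h = g * (i.1.1)⁻¹)}.ncard := by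
        intro x hx hgx
        have hinj : Function.Injective (fun j : Fin (μ x) => (⟨⟨x, hx⟩, j⟩ : Σ s : T, Fin (μ s))) := by
          intro a b hab
          simpa using hab
        have h1 : ((fun j : Fin (μ x) => (⟨⟨x, hx⟩, j⟩ : Σ s : T, Fin (μ s))) '' Set.univ).ncard =
            μ x := by
          rw [Set.ncard_image_of_injective _ hinj, Set.ncard_univ]
          simp
        rw [← h1]
        refine Set.ncard_le_ncard ?_ (Set.toFinite _)
        rintro _ ⟨j, _, rfl⟩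
        exact ⟨hne, hgx⟩
      rcases hT _ hmem with h1 | h1
      · exact hgen _ h1 (Or.inl (by group))
      · rw [← hinv]
        exact hgen _ h1 (Or.inr (by group))
  · have h1 := key (fun s => (μ s : ℝ) / orderOf s) (fun s => by rw [hinv, orderOf_inv])
      (fun s h => by rw [h]; simp)
    rw [h1, Fintype.sum_sigma, mul_sum, ← Finset.sum_coe_sort T]
    refine sum_congr rfl fun s _ => ?_
    simp only [sum_const, card_univ, Fintype.card_fin, nsmul_eq_mul]
    ring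

theorem order_le_closure {Γ : Type} [Group Γ] [Finite Γ] (s t : Γ) :
    orderOf s ≤ Nat.card (Subgroup.closure {s, t} : Subgroup Γ) := by
  rw [← Nat.card_zpowers]
  have h : Subgroup.zpowers s ≤ Subgroup.closure {s, t} := by
    rw [Subgroup.zpowers_le]
    exact Subgroup.subset_closure (by simp)
  exact Nat.card_le_card_of_injective (Subgroup.inclusion h) (Subgroup.inclusion_injective h)

theorem mcov_mu {Γ : Type} [Group Γ] [Fintype Γ] (μ : Γ → ℕ) (hinv : ∀ s, μ s⁻¹ = μ s)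
    (hno : ∀ s, s * s = 1 → μ s = 0) (hsum : ∑ x, (μ x : ℝ) / orderOf x ≤ 1) :
    ∃ k, ∑ x, μ x = 2 * k ∧ MCov (fun g h => μ (g⁻¹ * h)) (k + 1) := by
  obtain ⟨κ, _, s, h1, h2, h3, h4⟩ := exists_family μ hinv hno
  refine ⟨Fintype.card κ, h1, (mcov_pairs s (fun i => (s i)⁻¹) (fun i => Or.inl rfl) ?_).mono h3⟩
  refine le_trans (sum_le_sum fun i _ => ?_) (h4.le.trans hsum)
  have h5 : (0 : ℝ) < orderOf (s i) := by exact_mod_cast orderOf_pos (s i)
  have h6 : (orderOf (s i) : ℝ) ≤ Nat.card (Subgroup.closure {s i, (s i)⁻¹} : Subgroup Γ) := by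
    exact_mod_cast order_le_closure _ _
  exact div_le_div_of_nonneg_left (by norm_num) h5 h6

theorem mcov_mu_odd {Γ : Type} [Group Γ] [Fintype Γ] (μ : Γ → ℕ) (τ : Γ) (k : ℕ)
    (hinv : ∀ s, μ s⁻¹ = μ s) (hno : ∀ s, s * s = 1 → μ s = 0) (hτ : τ * τ = 1)
    (hk : ∑ x, μ x = 2 * k) (hord : ∀ s, μ s ≠ 0 → 12 * k ≤ orderOf s + 8) :
    MCov (fun g h => μ (g⁻¹ * h) + {_x : Unit | g ≠ h ∧ h = g * τ}.ncard) (k + 1) := by
  obtain ⟨κ, _, s, h1, h2, h3, h4⟩ := exists_family μ hinv hno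
  have hkk : Fintype.card κ = k := by omega
  have hτ' : τ⁻¹ = τ := inv_eq_of_mul_eq_one_left hτ
  have h5 := mcov_odd_pairs s (fun i => (s i)⁻¹) τ (fun i => Or.inl rfl) hτ' (by
    intro i
    have h6 : s i ≠ τ := by
      intro h
      exact h2 i (hno _ (by rw [h, hτ]))
    refine ⟨h6, fun h => h6 ?_⟩
    rw [← hτ', ← h, inv_inv]) (by
    intro i
    have h6 := hord (s i) (h2 i)
    have h7 := order_le_closure (s i) (s i)⁻¹
    omega)
  rw [hkk] at h5
  exact h5.mono fun g h => add_le_add (h3 g h) le_rfl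

end Pool.Agent.H355.LAQ
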