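import Pool.Agent.H355.LAQ.Over
import Pool.Agent.W111.LAR.Odd

set_option autoImplicit false

/-!
Families (multigraphs) with a matching: the odd case.
-/

namespace Pool.Agent.H355.LAQ

open Finset SimpleGraph H931R3.LA Pool.Agent.W111.LAR

/-- Breaking all cyclic components of a family and adding a graph `P`. -/
theorem assemble_multi' {V κ : Type} [Finite V] [Fintype κ] {H : κ → SimpleGraph V}
    (hdeg : ∀ i v, ((H i).neighborSet v).ncard ≤ 2) (s : II H → EE H) (hs : ∀ c, cl (s c) = c)
    (hinj : ∀ c c', s(aa (s c), bb (s c)) = s(aa (s c'), bb (s c')) → c = c')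
    (Q P : SimpleGraph V) (hQ : IsLF Q) (hsel : ∀ c, Q.Adj (aa (s c)) (bb (s c))) (hPQ : P ≤ Q)
    (hdisj : ∀ i u v, P.Adj u v → ¬ (H i).Adj u v) :
    ∃ F : Option κ → SimpleGraph V, (∀ t, IsLF (F t)) ∧
      ∀ u v, {i | (H i).Adj u v}.ncard + {_x : Unit | P.Adj u v}.ncard ≤
        {t | (F t).Adj u v}.ncard := by
  obtain ⟨F, hF, hcount, hnone⟩ := assemble_multi hdeg s hs hinj Q hQ hsel
  refine ⟨F, hF, fun u v => ?_⟩
  by_cases h : P.Adj u v
  · have h1 : {i | (H i).Adj u v} = ∅ := by
      ext i
      exact ⟨fun hi => hdisj i u v h hi, fun hi => absurd hi (Set.notMem_empty i)⟩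
    have h2 : {_x : Unit | P.Adj u v}.ncard ≤ 1 := by
      refine (Set.ncard_le_ncard (Set.subset_univ _) Set.finite_univ).trans ?_
      rw [Set.ncard_univ]
      simp
    have h3 : 0 < {t | (F t).Adj u v}.ncard := by
      refine (Set.ncard_pos (Set.toFinite _)).2 ⟨none, ?_⟩
      show (F none).Adj u v
      rw [hnone]
      exact hPQ h
    rw [h1, Set.ncard_empty]
    omega
  · have h2 : {_x : Unit | P.Adj u v} = ∅ := by
      ext i
      exact ⟨fun hi => h hi, fun hi => absurd hi (Set.notMem_empty i)⟩
    rw [h2, Set.ncard_empty, add_zero]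
    exact hcount u v

/-- The odd case. -/
theorem mcov_matching {V κ : Type} [Finite V] [Fintype κ] (H : κ → SimpleGraph V)
    (P : SimpleGraph V) (hdeg : ∀ i v, ((H i).neighborSet v).ncard ≤ 2)
    (hP : ∀ v, (P.neighborSet v).ncard ≤ 1) (hdisj : ∀ i u v, P.Adj u v → ¬ (H i).Adj u v)
    (L : ℕ) (hL : 12 * Fintype.card κ ≤ L + 8)
    (hsz : ∀ i v, Cyc (H i) v → L ≤ csize (H i) v) :
    MCov (fun u v => {i | (H i).Adj u v}.ncard + {_x : Unit | P.Adj u v}.ncard)
      (Fintype.card κ + 1) := by
  classical
  have := Fintype.ofFinite V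
  have : Fintype (EE H) := Fintype.ofFinite (EE H)
  have : Fintype (II H) := Fintype.ofFinite (II H)
  obtain ⟨key, hk1, hk2⟩ := exists_key P hP
  -- the transversal
  obtain ⟨s, hs, hind⟩ : ∃ s : II H → EE H, (∀ c, cl (s c) = c) ∧
      ∀ c c', c ≠ c' → ¬ conf P key (s c) (s c') := by
    rcases Nat.eq_zero_or_pos (Fintype.card κ) with h0 | h0
    · have hem : IsEmpty κ := Fintype.card_eq_zero_iff.1 h0
      have : IsEmpty (II H) := ⟨fun c => hem.elim c.1.1⟩
      exact ⟨fun c => isEmptyElim c, fun c => isEmptyElim c, fun c => isEmptyElim c⟩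
    · have hLpos : 0 < L := by omega
      have hem : ∀ c : II H, ∃ g : Fin L → EE H, Function.Injective g ∧ ∀ i, cl (g i) = c := by
        intro c
        have h1 : Fintype.card (Fin L) ≤ Fintype.card {e : EE H // cl e = c} := by
          rw [Fintype.card_fin, Fintype.card_subtype, class_card]
          exact hsz _ _ c.2.1
        obtain ⟨g⟩ := Function.Embedding.nonempty_of_card_le h1
        exact ⟨fun i => (g i).1, fun i j h => g.injective (Subtype.ext h), fun i => (g i).2⟩
      choose em hem1 hem2 using hem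
      have : Nonempty (Fin L) := ⟨⟨0, hLpos⟩⟩
      obtain ⟨f, hf⟩ := Pool.Agent.H931R2.Haxell.finite (I := II H) (S := Fin L)
        (adj := fun x y => conf P key (em x.1 x.2) (em y.1 y.2))
        (fun x y h => conf_symm h) (by
          intro K hK Z hZ
          by_contra hcon
          push Not at hcon
          have hsub : K ×ˢ (univ : Finset (Fin L)) ⊆ Z.biUnion (fun z =>
              univ.filter (fun x : II H × Fin L => conf P key (em x.1 x.2) (em z.1 z.2))) := by
            intro x hx
            obtain ⟨z, hz, hz2⟩ := hcon x.1 (mem_product.1 hx).1 x.2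
            exact mem_biUnion.2 ⟨z, hz, mem_filter.2 ⟨mem_univ _, hz2⟩⟩
          have h1 := (card_le_card hsub).trans card_biUnion_le
          have h2 : ∀ z ∈ Z, (univ.filter (fun x : II H × Fin L =>
              conf P key (em x.1 x.2) (em z.1 z.2))).card ≤ 6 * Fintype.card κ - 4 := by
            intro z _
            have h3 := conf_card P hP key (em z.1 z.2)
            have h4 : (univ.filter (fun x : II H × Fin L =>
                conf P key (em x.1 x.2) (em z.1 z.2))).card ≤
                (univ.filter (fun e => conf P key e (em z.1 z.2))).card := by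
              refine card_le_card_of_injOn (fun x => em x.1 x.2) ?_ ?_
              · intro x hx
                simp only [coe_filter, mem_univ, true_and, Set.mem_ofPred_eq] at hx ⊢
                exact hx
              · rintro ⟨c, i⟩ _ ⟨c', i'⟩ _ h
                have h5 : em c i = em c' i' := h
                have h6 : c = c' := by rw [← hem2 c i, ← hem2 c' i', h5]
                subst h6
                rw [hem1 c h5]
            omega
          have h3 := h1.trans (sum_le_sum h2)
          rw [sum_const, smul_eq_mul, card_product, card_univ, Fintype.card_fin] at h3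
          have hK1 : 1 ≤ K.card := card_pos.2 hK
          have h4 : Z.card * (6 * Fintype.card κ - 4) ≤
              (2 * (K.card - 1)) * (6 * Fintype.card κ - 4) := Nat.mul_le_mul_right _ hZ
          have h5 : (2 * (K.card - 1)) * (6 * Fintype.card κ - 4) =
              (K.card - 1) * (2 * (6 * Fintype.card κ - 4)) := by ring
          have h6 : (K.card - 1) * (2 * (6 * Fintype.card κ - 4)) ≤ (K.card - 1) * L :=
            Nat.mul_le_mul_left _ (by omega)
          have h7 : K.card * L = (K.card - 1) * L + L := by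
            obtain ⟨t, ht⟩ : ∃ t, K.card = t + 1 := ⟨K.card - 1, by omega⟩
            rw [ht, Nat.add_sub_cancel]
            ring
          omega) univ
      exact ⟨fun c => em c (f c), fun c => hem2 c _, fun c c' h => hf c (mem_univ _) c'
        (mem_univ _) h⟩
  -- selected edges at a vertex
  have hselinc : ∀ v u, (selGraph aa bb s).Adj v u → ∃ c, s(aa (s c), bb (s c)) = s(v, u) := by
    rintro v u ⟨_, c, hc⟩
    refine ⟨c, ?_⟩
    rcases hc with ⟨h1, h2⟩ | ⟨h1, h2⟩
    · rw [h1, h2]
    · rw [h1, h2, Sym2.eq_swap]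
  have hselincv : ∀ v u c, s(aa (s c), bb (s c)) = s(v, u) → (aa (s c) = v ∨ bb (s c) = v) := by
    intro v u c h
    rcases Sym2.eq_iff.1 h with ⟨h1, _⟩ | ⟨_, h1⟩
    · exact Or.inl h1
    · exact Or.inr h1
  have hseluniq : ∀ v u u', (selGraph aa bb s).Adj v u → (selGraph aa bb s).Adj v u' →
      u = u' := by
    intro v u u' h h'
    obtain ⟨c, hc⟩ := hselinc v u h
    obtain ⟨c', hc'⟩ := hselinc v u' h'
    have hcc : c = c' := by
      by_contra hne
      exact hind c c' hne ⟨by rw [hs, hs]; exact hne, Or.inl ⟨v, hselincv v u c hc,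
        hselincv v u' c' hc'⟩⟩
    subst hcc
    exact Sym2.congr_right.1 (hc.symm.trans hc')
  have hPuniq : ∀ v w w', P.Adj v w → P.Adj v w' → w = w' := fun v w w' h h' =>
    (Set.ncard_le_one (Set.toFinite _)).1 (hP v) w h w' h'
  have hup : ∀ v u, (selGraph aa bb s).Adj v u → key v < key u →
      ∃ c, s(aa (s c), bb (s c)) = s(v, u) ∧ upAt key (s c) v := by
    intro v u h hlt
    obtain ⟨c, hc⟩ := hselinc v u h
    refine ⟨c, hc, ?_⟩
    rcases Sym2.eq_iff.1 hc with ⟨h1, h2⟩ | ⟨h1, h2⟩
    · exact Or.inl ⟨h1, by rw [h2]; exact hlt⟩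
    · exact Or.inr ⟨h2, by rw [h1]; exact hlt⟩
  have hQ : IsLF (P ⊔ selGraph aa bb s) := by
    constructor
    · intro v0 c hc
      -- the two neighbours on the cycle
      have two : ∀ w ∈ c.support, ∃ x y, P.Adj w x ∧ (selGraph aa bb s).Adj w y ∧ x ≠ y ∧
          x ∈ c.support ∧ y ∈ c.support := by
        intro w hw
        have h2 := hc.ncard_neighborSet_toSubgraph_eq_two hw
        obtain ⟨x, y, hxy, hset⟩ := Set.ncard_eq_two.1 h2
        have hx : c.toSubgraph.Adj w x := by
          have : x ∈ c.toSubgraph.neighborSet w := by rw [hset]; simp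
          exact this
        have hy : c.toSubgraph.Adj w y := by
          have : y ∈ c.toSubgraph.neighborSet w := by rw [hset]; simp
          exact this
        have hxs : x ∈ c.support := by
          have := hx.snd_mem
          rwa [Walk.mem_verts_toSubgraph] at this
        have hys : y ∈ c.support := by
          have := hy.snd_mem
          rwa [Walk.mem_verts_toSubgraph] at this
        rcases hx.adj_sub with hx1 | hx1 <;> rcases hy.adj_sub with hy1 | hy1
        · exact absurd (hPuniq w x y hx1 hy1) hxy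
        · exact ⟨x, y, hx1, hy1, hxy, hxs, hys⟩
        · exact ⟨y, x, hy1, hx1, hxy.symm, hys, hxs⟩
        · exact absurd (hseluniq w x y hx1 hy1) hxy
      obtain ⟨w, hw, hmin⟩ := exists_min_image c.support.toFinset key ⟨v0, by simp⟩
      have hw' : w ∈ c.support := by simpa using hw
      have hmin' : ∀ u ∈ c.support, key w ≤ key u := fun u hu => hmin u (by simpa using hu)
      obtain ⟨x, y, hx, hy, hxy, hxs, hys⟩ := two w hw'
      have hlt : key w < key y := by
        refine lt_of_le_of_ne (hmin' y hys) fun h => ?_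
        rcases hk2 w y h with h1 | h1
        · exact hy.ne h1
        · exact hxy (hPuniq w x y hx h1)
      obtain ⟨x', y', hx', hy', hxy', _, hys'⟩ := two x hxs
      have hxw : x' = w := hPuniq x x' w hx' hx.symm
      have hlt' : key x < key y' := by
        refine lt_of_le_of_ne ((hk1 w x hx) ▸ hmin' y' hys') fun h => ?_
        rcases hk2 x y' h with h1 | h1
        · exact hy'.ne h1
        · exact hxy' (hPuniq x x' y' hx' h1)
      obtain ⟨c1, hc1, hu1⟩ := hup w y hy hlt
      obtain ⟨c2, hc2, hu2⟩ := hup x y' hy' hlt'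
      have hne : c1 ≠ c2 := by
        rintro rfl
        have := hc1.symm.trans hc2
        rcases Sym2.eq_iff.1 this with ⟨h1, _⟩ | ⟨h1, _⟩
        · exact hx.ne h1
        · exact hxy' (hxw.trans h1)
      exact hind c1 c2 hne ⟨by rw [hs, hs]; exact hne, Or.inr ⟨w, x, hx, hu1, hu2⟩⟩
    · intro v
      have h1 : (P ⊔ selGraph aa bb s).neighborSet v ⊆ P.neighborSet v ∪
          (selGraph aa bb s).neighborSet v := by
        intro u hu
        rcases hu with hu | hu
        · exact Or.inl hu
        · exact Or.inr hu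
      have h2 := Set.ncard_le_ncard h1 (Set.toFinite _)
      have h3 := Set.ncard_union_le (P.neighborSet v) ((selGraph aa bb s).neighborSet v)
      have h4 : ((selGraph aa bb s).neighborSet v).ncard ≤ 1 :=
        (Set.ncard_le_one (Set.toFinite _)).2 fun u hu u' hu' => hseluniq v u u' hu hu'
      have h5 := hP v
      omega
  have hinj : ∀ c c', s(aa (s c), bb (s c)) = s(aa (s c'), bb (s c')) → c = c' := by
    intro c c' h
    by_contra hne
    refine hind c c' hne ⟨by rw [hs, hs]; exact hne, Or.inl ⟨aa (s c), Or.inl rfl, ?_⟩⟩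
    exact hselincv _ (bb (s c)) c' h.symm
  obtain ⟨F, hF, hcount⟩ := assemble_multi' hdeg s hs hinj (P ⊔ selGraph aa bb s) P hQ
    (fun c => Or.inr ⟨ends_ne _, c, Or.inl ⟨rfl, rfl⟩⟩) le_sup_left hdisj
  have hcard : Nat.card (Option κ) = Fintype.card κ + 1 := by
    rw [Nat.card_eq_fintype_card, Fintype.card_option]
  rw [← hcard]
  exact mcov_of_type F hF hcount

open Classical in
/-- Pairs of elements of a group and an involution. -/
theorem mcov_odd_pairs {Γ κ : Type} [Group Γ] [Finite Γ] [Fintype κ] (s t : κ → Γ) (τ : Γ)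
    (hst : ∀ i, t i = (s i)⁻¹ ∨ ((s i)⁻¹ = s i ∧ (t i)⁻¹ = t i)) (hτ : τ⁻¹ = τ)
    (hτs : ∀ i, s i ≠ τ ∧ t i ≠ τ)
    (hsz : ∀ i, 12 * Fintype.card κ ≤
      Nat.card (Subgroup.closure {s i, t i} : Subgroup Γ) + 8) :
    MCov (fun g h => {i | g ≠ h ∧ (h = g * s i ∨ h = g * t i)}.ncard +
      {_x : Unit | g ≠ h ∧ h = g * τ}.ncard) (Fintype.card κ + 1) := by
  have hcl : ClPair τ τ := Or.inl hτ.symm
  have h1 := mcov_matching (fun i => pgr (s i) (t i)) (pgr τ τ)
    (fun i g => pgr_deg (hst i) g) (by
      intro g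
      rw [Set.ncard_le_one (Set.toFinite _)]
      intro a ha b hb
      have h2 := pgr_adj hcl g a ha
      have h3 := pgr_adj hcl g b hb
      rw [or_self] at h2 h3
      rw [h2, h3]) (by
      intro i u v h2 h3
      have h4 := pgr_adj hcl u v h2
      have h5 := pgr_adj (hst i) u v h3
      rw [or_self] at h4
      rw [h4] at h5
      rcases h5 with h5 | h5
      · exact (hτs i).1 (mul_left_cancel h5).symm
      · exact (hτs i).2 (mul_left_cancel h5).symm) (12 * Fintype.card κ - 8) (by omega) (by
      intro i g _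
      have h2 := pgr_size (s := s i) (t := t i) g
      have h3 := hsz i
      omega)
  refine h1.mono fun g h => add_le_add (Set.ncard_le_ncard ?_ (Set.toFinite _))
    (Set.ncard_le_ncard ?_ (Set.toFinite _))
  · rintro i ⟨h2, h3⟩
    exact ⟨h2, by tauto⟩
  · rintro x ⟨h2, h3⟩
    exact ⟨h2, Or.inl h3⟩

end Pool.Agent.H355.LAQ
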