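import Pool.Agent.H355.LAQ.Multi
import Pool.Agent.W111.LAR.Cay2

set_option autoImplicit false

/-!
Graphs over a family of graphs of maximum degree two.
-/

namespace Pool.Agent.H355.LAQ

open Finset SimpleGraph H931R3.LA Pool.Agent.W111.LAR

/-- `k` linear forests such that `{u, v}` is an edge of at least `μ u v` of them. -/
def MCov {V : Type} (μ : V → V → ℕ) (k : ℕ) : Prop :=
  ∃ F : Fin k → SimpleGraph V, (∀ i, IsLF (F i)) ∧ ∀ u v, μ u v ≤ {t | (F t).Adj u v}.ncard

theorem mcov_of_type {V τ : Type} [Finite τ] {μ : V → V → ℕ} (F : τ → SimpleGraph V)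
    (hF : ∀ t, IsLF (F t)) (hμ : ∀ u v, μ u v ≤ {t | (F t).Adj u v}.ncard) :
    MCov μ (Nat.card τ) := by
  let e := Finite.equivFin τ
  refine ⟨fun i => F (e.symm i), fun i => hF _, fun u v => (hμ u v).trans (le_of_eq ?_)⟩
  have himg : {c | (F (e.symm c)).Adj u v} = e '' {t | (F t).Adj u v} := by
    ext c
    simp only [Set.mem_ofPred_eq, Set.mem_image]
    constructor
    · intro hc
      exact ⟨e.symm c, hc, e.apply_symm_apply c⟩
    · rintro ⟨t, ht, rfl⟩
      rwa [e.symm_apply_apply]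
  rw [himg, Set.ncard_image_of_injective _ e.injective]

theorem mcov_add {V : Type} {μ μ₁ μ₂ : V → V → ℕ} {k₁ k₂ : ℕ} (h₁ : MCov μ₁ k₁)
    (h₂ : MCov μ₂ k₂) (h : ∀ u v, μ u v ≤ μ₁ u v + μ₂ u v) : MCov μ (k₁ + k₂) := by
  obtain ⟨F₁, hF₁, hμ₁⟩ := h₁
  obtain ⟨F₂, hF₂, hμ₂⟩ := h₂
  have hcard : Nat.card (Fin k₁ ⊕ Fin k₂) = k₁ + k₂ := by simp
  rw [← hcard]
  refine mcov_of_type (Sum.elim F₁ F₂) ?_ ?_
  · rintro (i | i)
    · exact hF₁ i
    · exact hF₂ i
  · intro u v
    refine (h u v).trans ((add_le_add (hμ₁ u v) (hμ₂ u v)).trans ?_)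
    rw [← Set.ncard_image_of_injective {t | (F₁ t).Adj u v} (Sum.inl_injective (β := Fin k₂)),
      ← Set.ncard_image_of_injective {t | (F₂ t).Adj u v} (Sum.inr_injective (α := Fin k₁)),
      ← Set.ncard_union_eq ?_ (Set.toFinite _) (Set.toFinite _)]
    · refine Set.ncard_le_ncard ?_ (Set.toFinite _)
      rintro x (⟨t, ht, rfl⟩ | ⟨t, ht, rfl⟩)
      · exact ht
      · exact ht
    · rw [Set.disjoint_left]
      rintro x ⟨t, _, rfl⟩ ⟨t', _, h'⟩
      cases h'

theorem MCov.mono {V : Type} {μ μ₁ : V → V → ℕ} {k : ℕ} (h₁ : MCov μ₁ k)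
    (h : ∀ u v, μ u v ≤ μ₁ u v) : MCov μ k := by
  obtain ⟨F₁, hF₁, hμ₁⟩ := h₁
  exact ⟨F₁, hF₁, fun u v => (h u v).trans (hμ₁ u v)⟩

/-- From forests on `W` with multiplicities to graphs over `W`. -/
theorem cov_of_mcov {V W : Type} [Finite V] [Finite W] {μ : W → W → ℕ} {k : ℕ} (hm : MCov μ k)
    (G : SimpleGraph V) (p : V → W)
    (h : ∀ u j, {v | G.Adj u v ∧ p v = j}.ncard ≤ μ (p u) j) : Cov G k := by
  obtain ⟨F, hF, hμ⟩ := hm
  exact Pool.Agent.TH525.FRG.cov_quot G k F hF p (fun u j => (h u j).trans (hμ _ _))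

open Classical in
theorem mcov_of_load {V κ : Type} [Finite V] [Fintype κ] (H : κ → SimpleGraph V)
    (hdeg : ∀ i v, ((H i).neighborSet v).ncard ≤ 2)
    (hload : ∀ v, ∑ i, (if Cyc (H i) v then (2 : ℝ) / csize (H i) v else 0) ≤ 1) :
    MCov (fun u v => {i | (H i).Adj u v}.ncard) (Fintype.card κ + 1) := by
  obtain ⟨F, hF, hcount⟩ := multi_of_load H hdeg hload
  have hcard : Nat.card (Option κ) = Fintype.card κ + 1 := by
    rw [Nat.card_eq_fintype_card, Fintype.card_option]
  rw [← hcard]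
  exact mcov_of_type F hF hcount

/-- At most `m` graphs whose cyclic components have at least `2 m` vertices. -/
theorem mcov_small {V κ : Type} [Finite V] [Fintype κ] (H : κ → SimpleGraph V) (m : ℕ)
    (hm : Fintype.card κ ≤ m) (hdeg : ∀ i v, ((H i).neighborSet v).ncard ≤ 2)
    (hsz : ∀ i v, Cyc (H i) v → 2 * m ≤ csize (H i) v) :
    MCov (fun u v => {i | (H i).Adj u v}.ncard) (Fintype.card κ + 1) := by
  classical
  refine mcov_of_load H hdeg fun v => ?_
  rcases Nat.eq_zero_or_pos m with hm0 | hm0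
  · have : IsEmpty κ := Fintype.card_eq_zero_iff.1 (by omega)
    simp
  · have h1 : ∀ i ∈ (univ : Finset κ), (if Cyc (H i) v then (2 : ℝ) / csize (H i) v else 0) ≤
        1 / m := by
      intro i _
      have hm1 : (0 : ℝ) < m := by exact_mod_cast hm0
      split_ifs with h
      · have h2 : (2 * m : ℝ) ≤ csize (H i) v := by exact_mod_cast hsz i v h
        rw [div_le_div_iff₀ (by linarith) hm1]
        linarith
      · positivity
    refine le_trans (sum_le_sum h1) ?_
    rw [sum_const, nsmul_eq_mul, card_univ]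
    have hm1 : (0 : ℝ) < m := by exact_mod_cast hm0
    have hm2 : (Fintype.card κ : ℝ) ≤ m := by exact_mod_cast hm
    rw [mul_one_div, div_le_one hm1]
    exact hm2

theorem mcov_group {V κ : Type} [Finite V] [Finite κ] (H : κ → SimpleGraph V) (m : ℕ)
    (hm : 1 ≤ m) (hdeg : ∀ i v, ((H i).neighborSet v).ncard ≤ 2)
    (hsz : ∀ i v, Cyc (H i) v → 2 * m ≤ csize (H i) v) :
    ∀ (n : ℕ) (s : Finset κ), s.card = n →
      MCov (fun u v => {i | i ∈ s ∧ (H i).Adj u v}.ncard) (n + (n + m - 1) / m) := by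
  classical
  have hsub : ∀ s : Finset κ, s.card ≤ m →
      MCov (fun u v => {i | i ∈ s ∧ (H i).Adj u v}.ncard) (s.card + 1) := by
    intro s hs
    have h1 := mcov_small (fun i : s => H i.1) m (by simpa using hs) (fun i v => hdeg i.1 v)
      (fun i v h => hsz i.1 v h)
    rw [Fintype.card_coe] at h1
    refine h1.mono fun u v => le_of_eq ?_
    rw [← Set.ncard_image_of_injective _ (Subtype.val_injective (p := fun i => i ∈ s))]
    congr 1
    ext i
    constructor
    · rintro ⟨h1, h2⟩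
      exact ⟨⟨i, h1⟩, h2, rfl⟩
    · rintro ⟨j, hj, rfl⟩
      exact ⟨j.2, hj⟩
  intro n
  induction n using Nat.strong_induction_on with
  | _ n ih =>
    intro s hs
    rcases Nat.eq_zero_or_pos n with h0 | h0
    · subst h0
      have : s = ∅ := card_eq_zero.1 hs
      subst this
      have h3 : (0 + m - 1) / m = 0 := by
        rw [Nat.div_eq_of_lt]
        omega
      rw [h3]
      refine ⟨fun i => i.elim0, fun i => i.elim0, fun u v => ?_⟩
      simp
    · by_cases hnm : n ≤ m
      · have h1 := hsub s (by omega)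
        rw [hs] at h1
        have h3 : (n + m - 1) / m = 1 := by
          rw [Nat.div_eq_of_lt_le]
          · omega
          · omega
        rwa [h3]
      · obtain ⟨t, hts, ht⟩ := exists_subset_card_eq (s := s) (n := m) (by omega)
        have h1 := hsub t (by omega)
        have h2 := ih (n - m) (by omega) (s \ t) (by
          rw [card_sdiff_of_subset hts]
          omega)
        have h3 := mcov_add (μ := fun u v => {i | i ∈ s ∧ (H i).Adj u v}.ncard) h1 h2 (by
          intro u v
          refine le_trans (Set.ncard_le_ncard ?_ (Set.toFinite _)) (Set.ncard_union_le _ _)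
          rintro i ⟨hi1, hi2⟩
          by_cases hit : i ∈ t
          · exact Or.inl ⟨hit, hi2⟩
          · exact Or.inr ⟨mem_sdiff.2 ⟨hi1, hit⟩, hi2⟩)
        have h5 : (n + m - 1) / m = (n - m + m - 1) / m + 1 := by
          have : n + m - 1 = (n - m + m - 1) + m := by omega
          rw [this, Nat.add_div_right _ (by omega)]
        rw [h5]
        have h6 : m + 1 + (n - m + (n - m + m - 1) / m) = n + ((n - m + m - 1) / m + 1) := by
          omega
        rwa [ht, h6] at h3

/-- A family whose cycles have length at least `2 m`. -/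
theorem mcov_cycles {V κ : Type} [Finite V] [Fintype κ] (H : κ → SimpleGraph V) (m : ℕ)
    (hm : 1 ≤ m) (hdeg : ∀ i v, ((H i).neighborSet v).ncard ≤ 2)
    (hcyc : ∀ i (v : V) (c : (H i).Walk v v), c.IsCycle → 2 * m ≤ c.length) :
    MCov (fun u v => {i | (H i).Adj u v}.ncard)
      (Fintype.card κ + (Fintype.card κ + m - 1) / m) := by
  have h1 := mcov_group H m hm hdeg (fun i v h => by
    obtain ⟨w, c, hc, hlen⟩ := exists_cycle h
    have h2 := hcyc i w c hc
    omega) (Fintype.card κ) univ card_univ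
  refine h1.mono fun u v => le_of_eq ?_
  congr 1
  ext i
  simp

open Classical in
/-- A family of pairs of elements of a group. -/
theorem mcov_pairs {Γ κ : Type} [Group Γ] [Finite Γ] [Fintype κ] (s t : κ → Γ)
    (hst : ∀ i, t i = (s i)⁻¹ ∨ ((s i)⁻¹ = s i ∧ (t i)⁻¹ = t i))
    (hsum : ∑ i, (2 : ℝ) / Nat.card (Subgroup.closure {s i, t i} : Subgroup Γ) ≤ 1) :
    MCov (fun g h => {i | g ≠ h ∧ (h = g * s i ∨ h = g * t i)}.ncard)
      (Fintype.card κ + 1) := by
  have h1 := mcov_of_load (fun i => pgr (s i) (t i)) (fun i g => pgr_deg (hst i) g) (by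
    intro g
    refine le_trans (sum_le_sum fun i _ => ?_) hsum
    split_ifs with h
    · have h2 : (0 : ℝ) < Nat.card (Subgroup.closure {s i, t i} : Subgroup Γ) := by
        exact_mod_cast Nat.card_pos
      have h3 : (Nat.card (Subgroup.closure {s i, t i} : Subgroup Γ) : ℝ) ≤
          csize (pgr (s i) (t i)) g := by exact_mod_cast pgr_size g
      exact div_le_div_of_nonneg_left (by norm_num) h2 h3
    · positivity)
  refine h1.mono fun g h => Set.ncard_le_ncard ?_ (Set.toFinite _)
  rintro i ⟨h2, h3⟩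
  exact ⟨h2, by tauto⟩

/-- Every member of a family taken `d` times. -/
theorem mcov_fold {V : Type} [Finite V] (f d : ℕ) (H : Fin f → SimpleGraph V)
    (hdeg : ∀ i v, ((H i).neighborSet v).ncard ≤ 2)
    (hcyc : ∀ i (v : V) (c : (H i).Walk v v), c.IsCycle → 2 * (f * d) ≤ c.length) :
    MCov (fun u v => d * {i | (H i).Adj u v}.ncard) (f * d + 1) := by
  have h1 := mcov_small (fun x : Fin f × Fin d => H x.1) (f * d) (by simp)
    (fun x v => hdeg x.1 v) (fun x v h => by
      obtain ⟨w, c, hc, hlen⟩ := exists_cycle h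
      have h2 := hcyc x.1 w c hc
      omega)
  have hcard : Fintype.card (Fin f × Fin d) = f * d := by simp
  rw [hcard] at h1
  refine h1.mono fun u v => le_of_eq ?_
  have h2 : {x : Fin f × Fin d | (H x.1).Adj u v} =
      {i | (H i).Adj u v} ×ˢ (Set.univ : Set (Fin d)) := by
    ext x
    simp
  rw [h2, Set.ncard_prod, Set.ncard_univ, Nat.card_eq_fintype_card, Fintype.card_fin, mul_comm]

end Pool.Agent.H355.LAQ
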